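import Pool.Agent.N89.HG.Stm
import Pool.Agent.N141.HX.FRB
import Pool.Agent.N362.HX.GEO

/-! # HG/FRBG: the Frobenius elements of the Galois group, in admissible numberings -/

set_option autoImplicit false

namespace Pool.Agent.N46.HG.FRBG

open Polynomial NumberField Pool.Agent.H901R3.MS Pool.Agent.N89.GS Pool.Agent.N89.BD
  Pool.Agent.N89.HX Pool.Agent.N89.HG

theorem mono_eq {M : Type} [Field M] {e : ℕ} (f : Fin (e + 1) → M) (x : Fin e → M)
    (h0 : f (Fin.last e) ≠ 0) (hf : pol f = C (f (Fin.last e)) * ∏ i, (X - C (x i))) :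
    mono f = ∏ i, (X - C (f (Fin.last e) * x i)) := by
  rcases Nat.eq_zero_or_pos e with rfl | he
  · simp [Pool.Agent.N89.HX.mono]
  · exact Pool.Agent.N362.HX.mono_eq he f x h0 hf

/-- two enumerations of the roots -/
theorem perm_of_prod {M : Type} [Field M] {e : ℕ} (W W₀ : Fin e → M) (hW : Function.Injective W)
    (h : ∏ i, (X - C (W₀ i)) = ∏ i, (X - C (W i))) :
    ∃ ρ : Equiv.Perm (Fin e), ∀ i, W₀ i = W (ρ i) := by
  have hex : ∀ i, ∃ j, W₀ j = W i := by
    intro i
    have h1 := congrArg (Polynomial.eval (W i)) h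
    rw [eval_prod, eval_prod, Finset.prod_eq_zero (Finset.mem_univ i) (f := fun j =>
      eval (W i) (X - C (W j))) (by simp)] at h1
    obtain ⟨j, _, hj⟩ := Finset.prod_eq_zero_iff.1 h1
    refine ⟨j, ?_⟩
    rw [eval_sub, eval_X, eval_C, sub_eq_zero] at hj
    exact hj.symm
  choose π hπ using hex
  have hπi : Function.Injective π := fun i j h => hW (by rw [← hπ i, ← hπ j, h])
  let πe : Equiv.Perm (Fin e) := Equiv.ofBijective π (Finite.injective_iff_bijective.1 hπi)
  refine ⟨πe.symm, fun i => ?_⟩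
  rw [← hπ (πe.symm i)]
  congr 1
  exact (πe.apply_symm_apply i).symm

theorem rg_map {O A B : Type} [CommRing O] [CommRing A] [CommRing B] (ψ : A →+* B) (φ : O →+* A)
    {k e m : ℕ} (R : Fin m → MvPolynomial (Fin k ⊕ Fin e) O) (t : Fin k → A) (ω : Fin e → A) :
    (rg φ R t ω).map ψ = rg (ψ.comp φ) R (fun j => ψ (t j)) (fun i => ψ (ω i)) := by
  unfold rg
  rw [Polynomial.map_add, Polynomial.map_sum, Polynomial.map_pow, Polynomial.map_X]
  congr 1
  refine Finset.sum_congr rfl fun i _ => ?_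
  rw [Polynomial.map_mul, Polynomial.map_C, Polynomial.map_pow, Polynomial.map_X]
  congr 2
  rw [MvPolynomial.eval₂_comp_left]
  congr 1
  funext j
  rcases j with j | j <;> rfl

theorem prod_map {A B : Type} [CommRing A] [CommRing B] (ψ : A →+* B) {e : ℕ}
    (𝒢 : Subgroup (Equiv.Perm (Fin e))) [Fintype 𝒢] (m : ℕ) (W ω : Fin e → A) :
    (∏ τ : 𝒢, (X - C (∑ i, ω i * ((m : A) * W ((τ : Equiv.Perm (Fin e)) i))))).map ψ =
      ∏ τ : 𝒢, (X - C (∑ i, ψ (ω i) * ((m : B) * ψ (W ((τ : Equiv.Perm (Fin e)) i))))) := by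
  rw [Polynomial.map_prod]
  refine Finset.prod_congr rfl fun τ _ => ?_
  rw [Polynomial.map_sub, Polynomial.map_X, Polynomial.map_C, map_sum]
  congr 2
  refine Finset.sum_congr rfl fun i _ => ?_
  rw [map_mul, map_mul, map_natCast]

/-- transfer of the resolvent identity -/
theorem transfer {O A L Ω : Type} [CommRing O] [CommRing A] [Field L] [Infinite L] [Field Ω]
    (φ : O →+* A) (ι : A →+* L) (hι : Function.Injective ι) (ψ : A →+* Ω) {k e : ℕ}
    (𝒢 : Subgroup (Equiv.Perm (Fin e))) [Fintype 𝒢] (m : ℕ)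
    (R : Fin (Fintype.card 𝒢) → MvPolynomial (Fin k ⊕ Fin e) O) (t : Fin k → A) (W : Fin e → A)
    (h : ∀ ω : Fin e → L, rg (ι.comp φ) R (fun j => ι (t j)) ω =
      ∏ τ : 𝒢, (X - C (∑ i, ω i * ((m : L) * ι (W ((τ : Equiv.Perm (Fin e)) i))))))
    (ω : Fin e → Ω) :
    rg (ψ.comp φ) R (fun j => ψ (t j)) ω =
      ∏ τ : 𝒢, (X - C (∑ i, ω i * ((m : Ω) * ψ (W ((τ : Equiv.Perm (Fin e)) i))))) := by
  have key : rg ((MvPolynomial.C : A →+* MvPolynomial (Fin e) A).comp φ) R
      (fun j => MvPolynomial.C (t j)) (fun i => MvPolynomial.X i) =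
      ∏ τ : 𝒢, (X - C (∑ i, (MvPolynomial.X i : MvPolynomial (Fin e) A) *
        ((m : MvPolynomial (Fin e) A) * MvPolynomial.C (W ((τ : Equiv.Perm (Fin e)) i))))) := by
    apply Polynomial.map_injective (MvPolynomial.map ι) (MvPolynomial.map_injective ι hι)
    ext1 n
    apply MvPolynomial.funext
    intro ω
    have e1 : ∀ p : Polynomial (MvPolynomial (Fin e) A),
        MvPolynomial.eval ω ((p.map (MvPolynomial.map ι)).coeff n) =
          (p.map (MvPolynomial.eval₂Hom ι ω)).coeff n := by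
      intro p
      rw [Polynomial.coeff_map, Polynomial.coeff_map, MvPolynomial.eval_map]
      rfl
    rw [e1, e1, rg_map, prod_map (MvPolynomial.eval₂Hom ι ω) 𝒢 m (fun i => MvPolynomial.C (W i))
      (fun i => MvPolynomial.X i)]
    have e2 : (MvPolynomial.eval₂Hom ι ω).comp
        ((MvPolynomial.C : A →+* MvPolynomial (Fin e) A).comp φ) = ι.comp φ := by
      ext x
      simp
    rw [e2]
    simp only [MvPolynomial.coe_eval₂Hom, MvPolynomial.eval₂_C, MvPolynomial.eval₂_X]
    rw [h ω]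
  have h2 := congrArg (Polynomial.map (MvPolynomial.eval₂Hom ψ ω)) key
  rw [rg_map, prod_map (MvPolynomial.eval₂Hom ψ ω) 𝒢 m (fun i => MvPolynomial.C (W i))
      (fun i => MvPolynomial.X i)] at h2
  have e2 : (MvPolynomial.eval₂Hom ψ ω).comp
      ((MvPolynomial.C : A →+* MvPolynomial (Fin e) A).comp φ) = ψ.comp φ := by
    ext x
    simp
  rw [e2] at h2
  simp only [MvPolynomial.coe_eval₂Hom, MvPolynomial.eval₂_C, MvPolynomial.eval₂_X] at h2
  exact h2

/-- the admissible numberings differ by elements of `𝒢` -/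
theorem uniq {Ω : Type} [Field Ω] [Infinite Ω] {e : ℕ} (𝒢 : Subgroup (Equiv.Perm (Fin e)))
    [Fintype 𝒢] (m : Ω) (hm : m ≠ 0) (W : Fin e → Ω) (hW : Function.Injective W)
    (ρ : Equiv.Perm (Fin e))
    (h : ∀ ω : Fin e → Ω,
      ∏ τ : 𝒢, (X - C (∑ i, ω i * (m * W (ρ ((τ : Equiv.Perm (Fin e)) i))))) =
      ∏ τ : 𝒢, (X - C (∑ i, ω i * (m * W ((τ : Equiv.Perm (Fin e)) i))))) : ρ ∈ 𝒢 := by
  have h1 : ∏ τ : 𝒢, (∑ i, MvPolynomial.X i *
      MvPolynomial.C (m * (W (ρ i) - W ((τ : Equiv.Perm (Fin e)) i))) :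
        MvPolynomial (Fin e) Ω) = 0 := by
    apply MvPolynomial.funext
    intro ω
    rw [map_prod, map_zero]
    have h2 := congrArg (Polynomial.eval (∑ i, ω i * (m * W (ρ i)))) (h ω)
    rw [eval_prod, eval_prod, Finset.prod_eq_zero (Finset.mem_univ (1 : 𝒢))
      (f := fun τ : 𝒢 => eval (∑ i, ω i * (m * W (ρ i)))
        (X - C (∑ i, ω i * (m * W (ρ ((τ : Equiv.Perm (Fin e)) i))))))
      (by rw [eval_sub, eval_X, eval_C]; exact sub_self _)] at h2
    rw [h2]
    refine Finset.prod_congr rfl fun τ _ => ?_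
    rw [map_sum, eval_sub, eval_X, eval_C, ← Finset.sum_sub_distrib]
    refine Finset.sum_congr rfl fun i _ => ?_
    rw [map_mul, MvPolynomial.eval_X, MvPolynomial.eval_C]
    ring
  obtain ⟨τ, _, hτ⟩ := Finset.prod_eq_zero_iff.1 h1
  have h3 : ∀ i, W (ρ i) = W ((τ : Equiv.Perm (Fin e)) i) := by
    intro i
    have h4 := congrArg (MvPolynomial.eval (Pi.single i (1 : Ω))) hτ
    rw [map_sum, map_zero, Finset.sum_eq_single i] at h4
    · rw [map_mul, MvPolynomial.eval_X, MvPolynomial.eval_C, Pi.single_eq_same, one_mul,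
        mul_eq_zero, sub_eq_zero] at h4
      exact h4.resolve_left hm
    · intro j _ hj
      rw [map_mul, MvPolynomial.eval_X, Pi.single_eq_of_ne hj, zero_mul]
    · intro hi
      exact absurd (Finset.mem_univ i) hi
  have h5 : ρ = (τ : Equiv.Perm (Fin e)) := Equiv.ext fun i => hW (h3 i)
  rw [h5]
  exact τ.2

theorem main : S_FRBG := by
  intro K _ _ F _ _ w φ hφ hw Ω _ _ _ k e h 𝒢 _ R t t' σ hRm ht hT
  obtain ⟨x, ⟨hg0, hx, hgx⟩, ⟨hA1, hA2⟩, hσ⟩ := hT
  -- the place of `K`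
  let φw : 𝓞 K →+* w.A := (algebraMap (𝓞 K) K).codRestrict w.A (fun z => (hw z).1)
  let tw : Fin k → w.A := fun j => ⟨t j, (ht j).1⟩
  have hφw : w.ρ.comp φw = φ := by
    ext z
    have h1 := (hw z).2
    rw [w.r_of (hw z).1] at h1
    exact h1
  have htw : ∀ j, w.ρ (tw j) = t' j := by
    intro j
    have h1 := (ht j).2
    rw [w.r_of (ht j).1] at h1
    exact h1
  have hfg : ∀ i, ev (algebraMap (𝓞 K) K) h t i ∈ w.A ∧
      w.r (ev (algebraMap (𝓞 K) K) h t i) = ev φ h t' i := by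
    intro i
    have h1 : ev (algebraMap (𝓞 K) K) h t i = w.A.subtype (MvPolynomial.eval₂ φw tw (h i)) := by
      rw [MvPolynomial.eval₂_comp_left]
      rfl
    have h2 : ev (algebraMap (𝓞 K) K) h t i ∈ w.A := by
      rw [h1]
      exact (MvPolynomial.eval₂ φw tw (h i)).2
    refine ⟨h2, ?_⟩
    rw [w.r_of h2]
    have h3 : (⟨ev (algebraMap (𝓞 K) K) h t i, h2⟩ : w.A) = MvPolynomial.eval₂ φw tw (h i) :=
      Subtype.ext h1
    rw [h3, MvPolynomial.eval₂_comp_left, hφw]
    unfold Pool.Agent.N89.HG.ev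
    congr 1
    funext j
    exact htw j
  obtain ⟨f, hf⟩ : ∃ f, f = ev (algebraMap (𝓞 K) K) h t := ⟨_, rfl⟩
  obtain ⟨g, hg⟩ : ∃ g, g = ev φ h t' := ⟨_, rfl⟩
  rw [← hf, ← hg] at hfg
  rw [← hg] at hg0 hgx hA1 hA2
  have hf0 : f (Fin.last e) ≠ 0 := by
    intro h
    apply hg0
    rw [← (hfg (Fin.last e)).2, h, w.r_zero]
  let L := AlgebraicClosure K
  have hsplL : ((pol f).map (algebraMap K L)).Splits := IsAlgClosed.splits _
  let M : IntermediateField K L := IntermediateField.adjoin K ((pol f).rootSet L)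
  have hsf : (pol f).IsSplittingField K M := IntermediateField.adjoin_rootSet_isSplittingField hsplL
  have hnor : Normal K M := Normal.of_isSplittingField (pol f)
  have hfd : FiniteDimensional K M := Polynomial.IsSplittingField.finiteDimensional M (pol f)
  have hgal : IsGalois K M := ⟨⟩
  have hnf : NumberField M := NumberField.of_module_finite K M
  obtain ⟨V, s, -, hV, hs⟩ := Pool.Agent.N455.BD.GL1.main K M F w φ hφ hw Ω
  -- the roots in `M`
  let f' : Fin (e + 1) → M := fun i => algebraMap K M (f i)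
  have hFl : f' (Fin.last e) ≠ 0 := (_root_.map_ne_zero _).2 hf0
  have hF : ∀ i, f' i ∈ V.A := fun i => (hV (f i)).1.2 (hfg i).1
  have hFr : ∀ i, V.r (f' i) = algebraMap F Ω (g i) := fun i => by
    rw [← (hfg i).2]
    exact (hV (f i)).2
  have hlr : V.r (f' (Fin.last e)) ≠ 0 := by
    rw [hFr]
    exact (_root_.map_ne_zero _).2 hg0
  have hspl : (pol f').Splits := by
    have h1 := hsf.splits
    rw [Pool.Agent.N141.HX.FRB.pol_map] at h1
    exact h1
  obtain ⟨ξ, hξ⟩ := Pool.Agent.N141.HX.FRB.enum hspl (Pool.Agent.N141.HX.FRB.pol_natDegree f' hFl)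
  rw [Pool.Agent.N141.HX.FRB.pol_lead f' hFl] at hξ
  have hroot : ∀ i, (pol f').eval (ξ i) = 0 := by
    intro i
    rw [hξ, eval_mul, eval_prod, Finset.prod_eq_zero (Finset.mem_univ i) (by simp), mul_zero]
  have hξA : ∀ i, ξ i ∈ V.A := fun i =>
    Pool.Agent.N141.HX.FRB.mem_A V f' hF hlr (ξ i) (hroot i)
  have hred := Pool.Agent.N141.HX.FRB.red_fact V f' hF ξ hξA hξ
  have hred' : ∏ i, (X - C (V.r (ξ i))) = ∏ i, (X - C (x i)) := by
    have h1 : C (V.r (f' (Fin.last e))) * ∏ i, (X - C (V.r (ξ i))) =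
        C (V.r (f' (Fin.last e))) * ∏ i, (X - C (x i)) := by
      rw [← hred, hFr, ← hgx, Pool.Agent.N141.HX.FRB.pol_map]
      congr 1
      funext i
      exact hFr i
    exact mul_left_cancel₀ (C_ne_zero.2 hlr) h1
  -- renumbering
  have hex : ∀ i, ∃ j, V.r (ξ j) = x i := by
    intro i
    have h1 := congrArg (Polynomial.eval (x i)) hred'
    rw [eval_prod, eval_prod, Finset.prod_eq_zero (Finset.mem_univ i) (f := fun j =>
      eval (x i) (X - C (x j))) (by simp)] at h1
    obtain ⟨j, _, hj⟩ := Finset.prod_eq_zero_iff.1 h1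
    refine ⟨j, ?_⟩
    rw [eval_sub, eval_X, eval_C, sub_eq_zero] at hj
    exact hj.symm
  choose π hπ using hex
  have hπi : Function.Injective π := fun i j h => hx (by rw [← hπ i, ← hπ j, h])
  let πe : Equiv.Perm (Fin e) := Equiv.ofBijective π (Finite.injective_iff_bijective.1 hπi)
  let Y : Fin e → M := fun i => ξ (π i)
  have hY : ∀ i, V.r (Y i) = x i := hπ
  have hYA : ∀ i, Y i ∈ V.A := fun i => hξA _
  have hYp : pol f' = C (f' (Fin.last e)) * ∏ i, (X - C (Y i)) := by
    rw [hξ]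
    congr 1
    exact (Equiv.prod_comp πe fun i => X - C (ξ i)).symm
  have hYi : Function.Injective Y := fun i j h => hx (by rw [← hY i, ← hY j, h])
  -- the action of `s`
  have hsY : ∀ i, s (Y i) = Y (σ i) := by
    intro i
    have h1 : (pol f').eval (s (Y i)) = 0 := by
      have h2 := congrArg s (hroot (π i))
      rw [map_zero, Pool.Agent.N141.HX.FRB.pol_eval, map_sum] at h2
      rw [Pool.Agent.N141.HX.FRB.pol_eval, ← h2]
      refine Finset.sum_congr rfl fun j _ => ?_
      rw [map_mul, map_pow]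
      congr 1
      exact (s.commutes (f j)).symm
    rw [hYp, eval_mul, eval_C, eval_prod, mul_eq_zero] at h1
    obtain ⟨j, _, hj⟩ := Finset.prod_eq_zero_iff.1 (h1.resolve_left hFl)
    rw [eval_sub, eval_X, eval_C, sub_eq_zero] at hj
    have h3 : V.r (s (Y i)) = x (σ i) := by
      rw [(hs (Y i)).2 (hξA _), hY, hσ]
    rw [hj, hY] at h3
    rw [hj, hx h3]
  -- the factorisation over `L`
  have hpL : (pol f).map (algebraMap K L) =
      C (algebraMap K L (f (Fin.last e))) * ∏ i, (X - C (algebraMap M L (Y i))) := by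
    have h1 : (pol f).map (algebraMap K L) = (pol f').map (algebraMap M L) := by
      rw [Pool.Agent.N141.HX.FRB.pol_map, Pool.Agent.N141.HX.FRB.pol_map]
      rfl
    rw [h1, hYp, Polynomial.map_mul, Polynomial.map_prod, Polynomial.map_C]
    simp only [Polynomial.map_sub, Polynomial.map_X, Polynomial.map_C]
    rfl
  have hYL : Function.Injective (fun i => algebraMap M L (Y i)) :=
    fun i j h => hYi ((algebraMap M L).injective h)
  -- the ring homomorphisms to `V.A`
  have hjm : ∀ z : w.A, ((algebraMap K M).comp w.A.subtype) z ∈ V.A := fun z => (hV z).1.2 z.2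
  let j : w.A →+* V.A := ((algebraMap K M).comp w.A.subtype).codRestrict V.A hjm
  have hjr : ∀ z : w.A, V.ρ (j z) = algebraMap F Ω (w.ρ z) := by
    intro z
    have h1 : V.r (((algebraMap K M).comp w.A.subtype) z) = algebraMap F Ω (w.r (z : K)) := (hV z).2
    rw [V.r_of (hjm z), w.r_of z.2] at h1
    exact h1
  let ι : V.A →+* L := (algebraMap M L).comp V.A.subtype
  have hι : Function.Injective ι :=
    (algebraMap M L).injective.comp Subtype.val_injective
  have hιφ : ι.comp (j.comp φw) = (algebraMap K L).comp (algebraMap (𝓞 K) K) := rfl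
  have hρφ : V.ρ.comp (j.comp φw) = (algebraMap F Ω).comp φ := by
    ext z
    show V.ρ (j (φw z)) = algebraMap F Ω (φ z)
    rw [hjr, ← hφw]
    rfl
  -- the roots of `mono`
  have hevL : ev ((algebraMap K L).comp (algebraMap (𝓞 K) K)) h (fun j => algebraMap K L (t j)) =
      fun i => algebraMap K L (f i) := by
    funext i
    rw [hf]
    unfold Pool.Agent.N89.HG.ev
    rw [MvPolynomial.eval₂_comp_left]
    rfl
  have hmL := mono_eq (fun i => algebraMap K L (f i)) (fun i => algebraMap M L (Y i))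
    ((_root_.map_ne_zero _).2 hf0) (by
      rw [← hpL, Pool.Agent.N141.HX.FRB.pol_map])
  let WL : Fin e → L := fun i => algebraMap K L (f (Fin.last e)) * algebraMap M L (Y i)
  have hWL : Function.Injective WL := fun a b hab =>
    hYL (mul_left_cancel₀ ((_root_.map_ne_zero _).2 hf0) hab)
  obtain ⟨W₀, hW₀m, hW₀r⟩ := R.spec L ((algebraMap K L).comp (algebraMap (𝓞 K) K))
    (fun j => algebraMap K L (t j))
  obtain ⟨ρ, hρ⟩ := perm_of_prod WL W₀ hWL (by
    rw [← hW₀m, hevL]
    exact hmL)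
  let WA : Fin e → V.A := fun i => ⟨f' (Fin.last e) * Y i, V.A.mul_mem (hF _) (hYA i)⟩
  have hWAL : ∀ i, ι (WA i) = WL i := by
    intro i
    show algebraMap M L (f' (Fin.last e) * Y i) = _
    rw [map_mul]
    rfl
  have hWAr : ∀ i, V.ρ (WA i) = algebraMap F Ω (g (Fin.last e)) * x i := by
    intro i
    have h1 : V.ρ (WA i) = V.r (f' (Fin.last e) * Y i) :=
      (V.r_of (V.A.mul_mem (hF _) (hYA i))).symm
    rw [h1, V.r_mul (hF _) (hYA i), hFr, hY]
  have htr := transfer (j.comp φw) ι hι V.ρ 𝒢 R.m R.R (fun i => j (tw i)) (fun i => WA (ρ i)) (by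
    intro ω
    rw [hιφ]
    have h1 := hW₀r ω
    simp only [hWAL]
    simp only [hρ] at h1
    exact h1)
  rw [hρφ] at htr
  have hρG : ρ ∈ 𝒢 := by
    refine uniq 𝒢 (R.m : Ω) ?_ (fun i => algebraMap F Ω (g (Fin.last e)) * x i) ?_ ρ ?_
    · rw [← map_natCast (algebraMap F Ω)]
      exact (_root_.map_ne_zero _).2 hRm
    · intro a b hab
      exact hx (mul_left_cancel₀ ((_root_.map_ne_zero _).2 hg0) hab)
    · intro ω
      have h1 := htr ω
      have h2 := hA2 ω
      simp only [hWAr, hjr, htw] at h1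
      rw [← h2, ← h1]
  have hadm : Adm ((algebraMap K L).comp (algebraMap (𝓞 K) K)) R
      (fun j => algebraMap K L (t j)) WL := by
    refine ⟨by rw [hevL]; exact hmL, fun ω => ?_⟩
    rw [hW₀r ω]
    simp only [hρ]
    exact Fintype.prod_equiv (Equiv.mulLeft (⟨ρ, hρG⟩ : 𝒢)) _ _ (fun τ => rfl)
  rw [← hf]
  refine ⟨fun i => algebraMap M L (Y i), s.liftNormal L, ⟨hf0, hYL, hpL⟩, hadm, ?_⟩
  intro i
  show s.liftNormal L (algebraMap M L (Y i)) = algebraMap M L (Y (σ i))
  rw [AlgEquiv.liftNormal_commutes, hsY]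

end Pool.Agent.N46.HG.FRBG
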